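import Pool.Agent.Lib.MP_975a4b_lc.Space
import Pool.Agent.Results.MP_975a4b_lc.Universal

set_option autoImplicit false

namespace Pool.Agent.Lib.MP_975a4b_lc.Variants.SelfCopy

open Pool.Agent.Lib.MP_975a4b_lc

/-- There is a compact metrizable space of covering dimension at most one that has strong
computable type and is homeomorphic to a proper subset of itself. -/
theorem result : ∃ (X : Type) (_ : TopologicalSpace X),
    CompactSpace X ∧ TopologicalSpace.MetrizableSpace X ∧ CovDimLE X 1 ∧
    StrongComputableType X ∧ ∃ X' : Set X, X' ≠ Set.univ ∧ Nonempty (X' ≃ₜ X) :=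
  ⟨XX, inferInstance, inferInstance, inferInstance, dim_XX, strong_XX, self_copy⟩

/-- The same statement from the theorem on universal spaces. -/
theorem of_universal : ∃ (X : Type) (_ : TopologicalSpace X),
    CompactSpace X ∧ TopologicalSpace.MetrizableSpace X ∧ CovDimLE X 1 ∧
    StrongComputableType X ∧ ∃ X' : Set X, X' ≠ Set.univ ∧ Nonempty (X' ≃ₜ X) := by
  obtain ⟨X, _, h1, h2, -, h3, h4, h5⟩ := Pool.Agent.Results.MP_975a4b_lc.Universal.result 1 le_rfl
  let _ : MetricSpace X := TopologicalSpace.metrizableSpaceMetric X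
  exact ⟨X, inferInstance, h1, h2, h3, h4, h5 X h3⟩

end Pool.Agent.Lib.MP_975a4b_lc.Variants.SelfCopy
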